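import Pool.Agent.Lib.MP_edb5be_nt.PD.Iface

/-!
Project PD (MP_edb5be_nt), module DENSX: the main theorem from the levels.
-/

set_option autoImplicit false

namespace Pool.Agent.Lib.MP_edb5be_nt.PD.H74

open Finset Pool.Agent.Lib.MP_edb5be_nt.EX
open Pool.Agent.Lib.MP_0a5adf_nt.TP (sg)

theorem sg_cases (d : Bool) : sg d = 1 ∨ sg d = -1 := by
  cases d
  · exact Or.inr rfl
  · exact Or.inl rfl

theorem tc_pos {m : ℤ} (h : 0 < m) : 0 < Tc m := by
  unfold Tc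
  split_ifs <;> omega

theorem tc_neg {m : ℤ} (h : m < 0) : Tc m < 0 := by
  unfold Tc
  split_ifs <;> omega

theorem tc_zero : Tc 0 = 0 := by
  unfold Tc
  simp

theorem iter_pos {m : ℤ} (h : 0 < m) (i : ℕ) : 0 < Tc^[i] m := by
  induction i with
  | zero => exact h
  | succ i ih => rw [Function.iterate_succ_apply']; exact tc_pos ih

theorem iter_neg {m : ℤ} (h : m < 0) (i : ℕ) : Tc^[i] m < 0 := by
  induction i with
  | zero => exact h
  | succ i ih => rw [Function.iterate_succ_apply']; exact tc_neg ih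

theorem iter_zero (i : ℕ) : Tc^[i] 0 = 0 := by
  induction i with
  | zero => rfl
  | succ i ih => rw [Function.iterate_succ_apply', ih, tc_zero]

/-- predecessors have the same sign -/
theorem sign_of_iter (d : Bool) {m x : ℤ} {i : ℕ} (h : Tc^[i] m = x) (hx : 0 < sg d * x) :
    0 < sg d * m := by
  rcases lt_trichotomy m 0 with h0 | h0 | h0
  · have := iter_neg h0 i
    rw [h] at this
    rcases sg_cases d with e | e <;> rw [e] at hx ⊢ <;> linarith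
  · rw [h0, iter_zero] at h
    rw [← h, mul_zero] at hx
    exact absurd hx (lt_irrefl _)
  · have := iter_pos h0 i
    rw [h] at this
    rcases sg_cases d with e | e <;> rw [e] at hx ⊢ <;> linarith

theorem sg_natAbs (d : Bool) {m : ℤ} (h : 0 < sg d * m) : sg d * (m.natAbs : ℤ) = m := by
  rcases sg_cases d with e | e <;> rw [e] at h ⊢ <;> omega

theorem densN (d : Bool) (S : Set ℤ) (D : ℝ) (h : ND.HasDens d S D) :
    ND.HasDensN {N : ℕ | sg d * (N : ℤ) ∈ S} D := by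
  unfold ND.HasDens at h
  unfold ND.HasDensN
  refine h.congr fun X => ?_
  congr 1
  unfold ND.cnt
  norm_cast
  have hsq : sg d * sg d = 1 := by
    rcases sg_cases d with e | e <;> rw [e] <;> norm_num
  have hinj : Function.Injective (fun N : ℕ => sg d * (N : ℤ)) := by
    intro a b hab
    have h1 : sg d * (sg d * (a : ℤ)) = sg d * (sg d * (b : ℤ)) := congrArg _ hab
    rw [← mul_assoc, ← mul_assoc, hsq, one_mul, one_mul] at h1
    exact_mod_cast h1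
  rw [← Set.ncard_image_of_injective _ hinj]
  congr 1
  ext m
  simp only [Set.mem_ofPred_eq, Set.mem_image]
  constructor
  · rintro ⟨h1, h2, h3⟩
    have h4 := sg_natAbs d h2
    refine ⟨m.natAbs, ⟨?_, ?_, ?_⟩, h4⟩
    · rw [h4]
      exact h1
    · have : m ≠ 0 := by
        intro h0
        rw [h0, mul_zero] at h2
        exact lt_irrefl _ h2
      omega
    · have h5 : sg d * m = (m.natAbs : ℤ) := by
        calc sg d * m = sg d * (sg d * (m.natAbs : ℤ)) := by rw [h4]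
          _ = (m.natAbs : ℤ) := by rw [← mul_assoc, hsq, one_mul]
      have h6 : ((sg d * m : ℤ) : ℝ) = (m.natAbs : ℝ) := by
        rw [h5]
        exact Int.cast_natCast _
      rw [← h6]
      exact h3
  · rintro ⟨N, ⟨h1, h2, h3⟩, rfl⟩
    refine ⟨h1, ?_, ?_⟩
    · rw [← mul_assoc, hsq, one_mul]
      exact_mod_cast h2
    · rw [← mul_assoc, hsq, one_mul]
      exact_mod_cast h3

/-- the limit argument -/
theorem limit_arg {c b δ r : ℝ} {C : ℝ} (h : ∀ M : ℕ, ∃ n : ℕ, M ≤ n ∧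
    c * n ≤ C + 2 * δ * (r + b * n + 1)) : c ≤ 2 * δ * b := by
  by_contra hc
  push Not at hc
  obtain ⟨M, hM⟩ := exists_nat_gt ((C + 2 * δ * (r + 1)) / (c - 2 * δ * b))
  obtain ⟨n, hn, h1⟩ := h M
  have h2 : 0 < c - 2 * δ * b := by linarith
  rw [div_lt_iff₀ h2] at hM
  have h3 : (M : ℝ) ≤ n := by exact_mod_cast hn
  have h4 : (M : ℝ) * (c - 2 * δ * b) ≤ n * (c - 2 * δ * b) :=
    mul_le_mul_of_nonneg_right h3 h2.le
  nlinarith

/-- one interval of levels -/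
theorem main_sum (inj : InjStatement) (node : NodeStatement) (d : Bool) (x y : ℤ) (a : ℕ)
    (hy : Tc^[a] y = x) (hx : 0 < sg d * x) (hper : ∀ p : ℕ, 1 ≤ p → Tc^[p] y ≠ y) (Γ n r : ℕ)
    (hr : |(y : ℝ)| + Γ ≤ 2 ^ r) (δ C : ℝ)
    (hlog : ∀ (R : ℕ) (Z : Finset ℕ), (∀ N ∈ Z, N ∈ {N : ℕ | sg d * (N : ℤ) ∈
      {n : ℤ | ∃ i : ℕ, Tc^[i] n = x}} ∧ 1 ≤ N ∧ N ≤ 2 ^ R) →
      ∑ N ∈ Z, (1 : ℝ) / N ≤ C + 2 * δ * (R + 1))
    (hlev : ∀ m : ℕ, n + n / 20 ≤ m → m ≤ n + n / 10 → ∃ W : Finset (List ℕ),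
      GW Γ m W ∧ 1 / 2 ≤ su W (fun _ => 1) y) :
    1 / (40 * (|(y : ℝ)| + Γ)) * n ≤ C + 2 * δ * (r + 2 * n + 1) := by
  classical
  have hysg : 0 < sg d * y := sign_of_iter d hy hx
  have hy0 : y ≠ 0 := by
    intro h
    rw [h, mul_zero] at hysg
    exact lt_irrefl _ hysg
  have hyR : 0 < |(y : ℝ)| := abs_pos.2 (by exact_mod_cast hy0)
  have hpos : 0 < |(y : ℝ)| + Γ := by positivity
  -- choose the sets
  have hch : ∀ m : ℕ, ∃ W : Finset (List ℕ), n + n / 20 ≤ m → m ≤ n + n / 10 →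
      GW Γ m W ∧ 1 / 2 ≤ su W (fun _ => 1) y := by
    intro m
    by_cases h : n + n / 20 ≤ m ∧ m ≤ n + n / 10
    · obtain ⟨W, hW⟩ := hlev m h.1 h.2
      exact ⟨W, fun _ _ => hW⟩
    · exact ⟨∅, fun h1 h2 => absurd ⟨h1, h2⟩ h⟩
  choose W hW using hch
  obtain ⟨I, hI⟩ : ∃ I, I = Icc (n + n / 20) (n + n / 10) := ⟨_, rfl⟩
  have hWI : ∀ m ∈ I, GW Γ m (W m) ∧ 1 / 2 ≤ su (W m) (fun _ => 1) y := by
    intro m hm
    rw [hI, mem_Icc] at hm
    exact hW m hm.1 hm.2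
  obtain ⟨P, hP⟩ : ∃ P : Finset (List ℕ), P = I.biUnion fun m => (W m).filter (Ad y) :=
    ⟨_, rfl⟩
  have hPm : ∀ u ∈ P, ∃ m ∈ I, u ∈ W m ∧ Ad y u := by
    intro u hu
    rw [hP, mem_biUnion] at hu
    obtain ⟨m, hm, hu⟩ := hu
    rw [mem_filter] at hu
    exact ⟨m, hm, hu.1, hu.2⟩
  -- facts on the ends
  have hfact : ∀ u ∈ P, (∀ b ∈ u, 1 ≤ b) ∧ Ad y u ∧ Tc^[u.sum] (zz y u) = y ∧
      0 < sg d * zz y u ∧ |(zz y u : ℝ)| * wt u ≤ |(y : ℝ)| + Γ ∧
      |(zz y u : ℝ)| ≤ 2 ^ (r + 2 * n) := by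
    intro u hu
    obtain ⟨m, hm, h1, h2⟩ := hPm u hu
    have h3 := (hWI m hm).1
    obtain ⟨h4, h5, h6⟩ := node Γ m (W m) y u (Nat.cast_nonneg Γ) h3 h1 h2
    refine ⟨h3.pos u h1, h2, h4, sign_of_iter d h4 hysg, h5, h6.trans ?_⟩
    have h7 : m ≤ 2 * n := by
      rw [hI, mem_Icc] at hm
      omega
    calc (|(y : ℝ)| + Γ) * 2 ^ m ≤ 2 ^ r * 2 ^ (2 * n) :=
          mul_le_mul hr (pow_le_pow_right₀ (by norm_num) h7) (by positivity) (by positivity)
      _ = 2 ^ (r + 2 * n) := by rw [pow_add]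
  have hinj : Set.InjOn (fun u => (zz y u).natAbs) (P : Set (List ℕ)) := by
    intro u hu u' hu' h
    obtain ⟨a1, a2, -, a4, -⟩ := hfact u hu
    obtain ⟨b1, b2, -, b4, -⟩ := hfact u' hu'
    refine inj y hper u u' a1 b1 a2 b2 ?_
    rw [← sg_natAbs d a4, ← sg_natAbs d b4]
    simp only at h
    rw [h]
  have hZ := hlog (r + 2 * n) (P.image fun u => (zz y u).natAbs) (by
    intro N hN
    obtain ⟨u, hu, rfl⟩ := mem_image.1 hN
    obtain ⟨-, -, a3, a4, -, a6⟩ := hfact u hu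
    refine ⟨?_, ?_, ?_⟩
    · simp only [Set.mem_ofPred_eq]
      refine ⟨a + u.sum, ?_⟩
      rw [sg_natAbs d a4, Function.iterate_add_apply, a3, hy]
    · have : zz y u ≠ 0 := by
        intro h0
        rw [h0, mul_zero] at a4
        exact lt_irrefl _ a4
      omega
    · have : (((zz y u).natAbs : ℕ) : ℝ) ≤ ((2 ^ (r + 2 * n) : ℕ) : ℝ) := by
        rw [Nat.cast_natAbs]
        push_cast
        exact a6
      exact_mod_cast this)
  rw [sum_image hinj] at hZ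
  -- lower bound
  have h1 : ∑ u ∈ P, wt u / (|(y : ℝ)| + Γ) ≤ ∑ u ∈ P, (1 : ℝ) / ((zz y u).natAbs : ℝ) := by
    refine sum_le_sum fun u hu => ?_
    obtain ⟨-, -, -, a4, a5, -⟩ := hfact u hu
    have hz0 : (zz y u : ℝ) ≠ 0 := by
      intro h0
      have h00 : zz y u = 0 := by exact_mod_cast h0
      rw [h00, mul_zero] at a4
      exact lt_irrefl _ a4
    have hz : 0 < |(zz y u : ℝ)| := abs_pos.2 hz0
    rw [Nat.cast_natAbs, Int.cast_abs, div_le_div_iff₀ hpos hz]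
    linarith
  have hdisj : ∀ m ∈ I, ∀ m' ∈ I, m ≠ m' →
      Disjoint ((W m).filter (Ad y)) ((W m').filter (Ad y)) := by
    intro m hm m' hm' hne
    rw [Finset.disjoint_left]
    intro u hu hu'
    have e1 := (hWI m hm).1.len u (mem_filter.1 hu).1
    have e2 := (hWI m' hm').1.len u (mem_filter.1 hu').1
    exact hne (e1.symm.trans e2)
  have h2 : ∑ u ∈ P, wt u / (|(y : ℝ)| + Γ) =
      ∑ m ∈ I, su (W m) (fun _ => 1) y / (|(y : ℝ)| + Γ) := by
    rw [hP, sum_biUnion (fun m hm m' hm' hne => hdisj m hm m' hm' hne)]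
    refine sum_congr rfl fun m _ => ?_
    unfold su
    rw [sum_div]
    simp
  have h3 : ∑ _m ∈ I, (1 / 2 : ℝ) / (|(y : ℝ)| + Γ) ≤
      ∑ m ∈ I, su (W m) (fun _ => 1) y / (|(y : ℝ)| + Γ) :=
    sum_le_sum fun m hm => div_le_div_of_nonneg_right (hWI m hm).2 hpos.le
  rw [sum_const, nsmul_eq_mul] at h3
  have h4 : (n : ℝ) / 20 ≤ (I.card : ℝ) := by
    rw [hI, Nat.card_Icc]
    have h5 : n ≤ 20 * (n + n / 10 + 1 - (n + n / 20)) := by omega
    have h6 : (n : ℝ) ≤ 20 * ((n + n / 10 + 1 - (n + n / 20) : ℕ) : ℝ) := by exact_mod_cast h5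
    linarith
  have h5 : (n : ℝ) / 20 * ((1 / 2 : ℝ) / (|(y : ℝ)| + Γ)) ≤
      (I.card : ℝ) * ((1 / 2 : ℝ) / (|(y : ℝ)| + Γ)) :=
    mul_le_mul_of_nonneg_right h4 (by positivity)
  have h6 : 1 / (40 * (|(y : ℝ)| + Γ)) * (n : ℝ) =
      (n : ℝ) / 20 * ((1 / 2 : ℝ) / (|(y : ℝ)| + Γ)) := by
    obtain ⟨q, hq⟩ : ∃ q, q = |(y : ℝ)| + Γ := ⟨_, rfl⟩
    rw [← hq] at hpos ⊢
    field_simp
    ring
  push_cast at hZ
  rw [h6]
  linarith

theorem densx (levels : LevelsStatement) (child : ChildStatement) (inj : InjStatement)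
    (node : NodeStatement) (logd : LogDStatement) : DensXStatement := by
  obtain ⟨Γ, k, y₀, -, hlev⟩ := levels
  obtain ⟨K, hK⟩ := child k y₀
  refine ⟨1 / (160 * (K + Γ + 1)), by positivity, ?_⟩
  intro d x hx3 hx D hD
  obtain ⟨y, hy1, hy2, ⟨a, ha⟩, hper⟩ := hK x hx3
  have hx0 : x ≠ 0 := by
    intro h
    rw [h, mul_zero] at hx
    exact lt_irrefl _ hx
  have hxR : 1 ≤ |(x : ℝ)| := by
    have : 1 ≤ |x| := Int.one_le_abs hx0
    exact_mod_cast this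
  have hysg : 0 < sg d * y := sign_of_iter d ha hx
  have hy0 : y ≠ 0 := by
    intro h
    rw [h, mul_zero] at hysg
    exact lt_irrefl _ hysg
  have hyR : 0 < |(y : ℝ)| := abs_pos.2 (by exact_mod_cast hy0)
  have hyx : |(y : ℝ)| ≤ K * |(x : ℝ)| := by exact_mod_cast hy2
  have hdN := densN d _ D hD
  obtain ⟨r, hr⟩ : ∃ r : ℕ, |(y : ℝ)| + Γ ≤ 2 ^ r := by
    obtain ⟨r, hr⟩ := pow_unbounded_of_one_lt (|(y : ℝ)| + Γ) (by norm_num : (1 : ℝ) < 2)
    exact ⟨r, hr.le⟩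
  have key : ∀ δ : ℝ, D < δ → 1 / (160 * (K + Γ + 1)) / |(x : ℝ)| ≤ δ := by
    intro δ hδ
    obtain ⟨C, hC⟩ := logd _ D δ hdN hδ
    have h1 : 1 / (40 * (|(y : ℝ)| + Γ)) ≤ 2 * δ * 2 := by
      refine limit_arg (C := C) (r := r) fun M => ?_
      obtain ⟨n, hn, hn2⟩ := hlev y hy1 M
      exact ⟨n, hn, main_sum inj node d x y a ha hx hper Γ n r hr δ C hC hn2⟩
    have h2 : |(y : ℝ)| + Γ ≤ (K + Γ + 1) * |(x : ℝ)| := by
      have : (Γ : ℝ) ≤ Γ * |(x : ℝ)| := le_mul_of_one_le_right (by positivity) hxR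
      nlinarith
    have h3 : 1 / (160 * (K + Γ + 1)) / |(x : ℝ)| ≤ 1 / (160 * (|(y : ℝ)| + Γ)) := by
      rw [div_div]
      refine one_div_le_one_div_of_le (by positivity) ?_
      nlinarith
    have h4 : 1 / (160 * (|(y : ℝ)| + Γ)) = 1 / (40 * (|(y : ℝ)| + Γ)) / 4 := by
      rw [div_div]
      congr 1
      ring
    linarith
  exact le_of_forall_gt_imp_ge_of_dense key

end Pool.Agent.Lib.MP_edb5be_nt.PD.H74
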